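import Pool.Agent.Lib.ND37.Defs

/-! Functions of low degree on matrices, and weights that kill them. -/

set_option autoImplicit false

namespace Pool.Agent.Lib.ND37

open Finset
open scoped Classical

variable (K : Type) [Field K] {α β : Type}

/-- a monomial in the entries of a matrix given by its columns -/
noncomputable def mon (Z : Finset (α × β)) : (β → Finset α) → K :=
  fun τ => if ∀ z ∈ Z, z.1 ∈ τ z.2 then 1 else 0

/-- functions of degree at most `d` -/
noncomputable def Low (α β : Type) (d : ℕ) : Submodule K ((β → Finset α) → K) :=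
  Submodule.span K {F | ∃ Z : Finset (α × β), Z.card ≤ d ∧ F = mon K Z}

/-- `x` carries a weight on its colour class that kills all monomials of degree below `ι` -/
def Good [Fintype α] (ι : ℕ) (c : Finset α → ℕ) (x : Finset α) : Prop :=
  ∃ ρ : Finset α → K, ρ x ≠ 0 ∧ (∀ y, ρ y ≠ 0 → c y = c x) ∧
    ∀ T : Finset α, T.card < ι → ∑ y, (if T ⊆ y then ρ y else 0) = 0

variable {K}

theorem mon_mul (Z Z' : Finset (α × β)) : mon K Z * mon K Z' = mon K (Z ∪ Z') := by
  funext τ
  simp only [mon, Pi.mul_apply, forall_mem_union]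
  rw [ite_zero_mul_ite_zero, one_mul]

theorem Low_mono {d e : ℕ} (h : d ≤ e) : Low K α β d ≤ Low K α β e :=
  Submodule.span_mono fun _ ⟨Z, hZ, hF⟩ => ⟨Z, hZ.trans h, hF⟩

theorem Low_mul {d e : ℕ} {F G : (β → Finset α) → K} (hF : F ∈ Low K α β d)
    (hG : G ∈ Low K α β e) : F * G ∈ Low K α β (d + e) := by
  have := Submodule.mul_mem_mul hF hG
  rw [Low, Low, Submodule.span_mul_span] at this
  refine Submodule.span_mono ?_ this
  rintro _ ⟨_, ⟨Z, hZ, rfl⟩, _, ⟨Z', hZ', rfl⟩, rfl⟩
  exact ⟨Z ∪ Z', (card_union_le _ _).trans (add_le_add hZ hZ'), mon_mul Z Z'⟩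

theorem Low_one : (1 : (β → Finset α) → K) ∈ Low K α β 0 :=
  Submodule.subset_span ⟨∅, le_rfl, by funext τ; simp [mon]⟩

theorem Low_const (c : K) : (fun _ => c : (β → Finset α) → K) ∈ Low K α β 1 := by
  have : (fun _ => c : (β → Finset α) → K) = c • (1 : (β → Finset α) → K) := by
    funext τ; simp
  rw [this]
  exact Low_mono zero_le_one (Submodule.smul_mem _ _ Low_one)

theorem Low_var (u : α) (w : β) {F : (β → Finset α) → K} (h1 : ∀ τ, u ∈ τ w → F τ = 1)
    (h0 : ∀ τ, u ∉ τ w → F τ = 0) : F ∈ Low K α β 1 :=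
  Submodule.subset_span ⟨{(u, w)}, by simp, by
    funext τ
    by_cases h : u ∈ τ w
    · simp [mon, h, h1 τ h]
    · simp [mon, h, h0 τ h]⟩

theorem Low_prod {γ : Type} (s : Finset γ) (F : γ → (β → Finset α) → K) (d : γ → ℕ)
    (h : ∀ i ∈ s, F i ∈ Low K α β (d i)) : ∏ i ∈ s, F i ∈ Low K α β (∑ i ∈ s, d i) := by
  induction s using Finset.induction_on with
  | empty => simpa using Low_one
  | insert a s ha ih =>
    rw [prod_insert ha, sum_insert ha]
    exact Low_mul (h a (mem_insert_self _ _)) (ih fun i hi => h i (mem_insert_of_mem hi))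

theorem Low_pow {F : (β → Finset α) → K} (hF : F ∈ Low K α β 1) (k : ℕ) :
    F ^ k ∈ Low K α β k := by
  induction k with
  | zero => simpa using Low_one
  | succ k ih => rw [pow_succ]; exact Low_mul ih hF

theorem Low_eval {γ : Type} (a : γ → (β → Finset α) → K) (ha : ∀ v, a v ∈ Low K α β 1)
    (Q : MvPolynomial γ K) {E : ℕ} (hQ : Q.totalDegree ≤ E) :
    (fun τ => MvPolynomial.eval (fun v => a v τ) Q) ∈ Low K α β E := by
  have : (fun τ => MvPolynomial.eval (fun v => a v τ) Q) =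
      ∑ d ∈ Q.support, Q.coeff d • ∏ i ∈ d.support, a i ^ d i := by
    funext τ
    simp [MvPolynomial.eval_eq, Finset.sum_apply, Finset.prod_apply]
  rw [this]
  refine Submodule.sum_mem _ fun d hd => Submodule.smul_mem _ _ ?_
  exact Low_mono ((MvPolynomial.le_totalDegree hd).trans hQ)
    (Low_prod _ _ _ fun i _ => Low_pow (ha i) _)

theorem kill [Fintype α] [Fintype β] {ι d : ℕ} (ρ : β → Finset α → K)
    (hρ : ∀ w (T : Finset α), T.card < ι → ∑ y, (if T ⊆ y then ρ w y else 0) = 0)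
    (hd : d < Fintype.card β * ι) {F : (β → Finset α) → K} (hF : F ∈ Low K α β d) :
    ∑ τ : β → Finset α, (∏ w, ρ w (τ w)) * F τ = 0 := by
  induction hF using Submodule.span_induction with
  | mem F h =>
    obtain ⟨Z, hZ, rfl⟩ := h
    set T : β → Finset α := fun w => (Z.filter fun z => z.2 = w).image Prod.fst with hT
    obtain ⟨w, hw⟩ : ∃ w, (T w).card < ι := by
      by_contra h
      push Not at h
      have h1 : Z.card = ∑ w, (Z.filter fun z => z.2 = w).card :=
        card_eq_sum_card_fiberwise fun _ _ => mem_univ _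
      have h2 := card_nsmul_le_sum univ (fun w => (Z.filter fun z => z.2 = w).card) ι
        fun w _ => (h w).trans card_image_le
      rw [card_univ, smul_eq_mul] at h2
      omega
    have e : ∀ τ : β → Finset α, (∏ w, ρ w (τ w)) * mon K Z τ =
        ∏ w, if T w ⊆ τ w then ρ w (τ w) else 0 := fun τ => by
      have : (∀ z ∈ Z, z.1 ∈ τ z.2) ↔ ∀ w, T w ⊆ τ w := by
        refine ⟨fun h w u hu => ?_, fun h z hz => h z.2 ?_⟩
        · obtain ⟨z, hz, rfl⟩ := mem_image.1 hu
          obtain ⟨h1, rfl⟩ := mem_filter.1 hz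
          exact h z h1
        · exact mem_image.2 ⟨z, mem_filter.2 ⟨hz, rfl⟩, rfl⟩
      unfold mon
      split_ifs with h
      · rw [mul_one]
        exact prod_congr rfl fun w _ => (if_pos (this.1 h w)).symm
      · rw [mul_zero]
        obtain ⟨w, hw⟩ := not_forall.1 (mt this.2 h)
        exact (prod_eq_zero (mem_univ w) (if_neg hw)).symm
    rw [sum_congr rfl fun τ _ => e τ, ← Fintype.piFinset_univ,
      ← prod_univ_sum (fun _ => univ) fun w y => if T w ⊆ y then ρ w y else 0]
    exact prod_eq_zero (mem_univ w) (hρ w _ hw)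
  | zero => simp
  | add F G _ _ h1 h2 => simp only [Pi.add_apply, mul_add, sum_add_distrib, h1, h2, add_zero]
  | smul c F _ h =>
    simp only [Pi.smul_apply, smul_eq_mul, mul_left_comm _ c, ← mul_sum, h, mul_zero]

theorem other [Fintype α] [Fintype β] {ι d : ℕ} (ρ : β → Finset α → K)
    (hρ : ∀ w (T : Finset α), T.card < ι → ∑ y, (if T ⊆ y then ρ w y else 0) = 0)
    (hd : d < Fintype.card β * ι) {F : (β → Finset α) → K} (hF : F ∈ Low K α β d)
    (σ : β → Finset α) (h : (∏ w, ρ w (σ w)) * F σ ≠ 0) :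
    ∃ τ, τ ≠ σ ∧ (∏ w, ρ w (τ w)) * F τ ≠ 0 := by
  by_contra hc
  push Not at hc
  have h0 := kill ρ hρ hd hF
  rw [sum_eq_single σ (fun τ _ h => hc τ h) fun h => absurd (mem_univ _) h] at h0
  exact h h0

theorem bad_card [Fintype α] (ι N : ℕ) (c : Finset α → ℕ) (hc : ∀ x, c x < N) :
    (univ.filter fun x => ¬ Good K ι c x).card ≤
      (univ.filter fun T : Finset α => T.card < ι).card * N := by
  have := card_le_mul_card_image_of_maps_to (s := univ.filter fun x => ¬ Good K ι c x)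
    (t := range N) (f := c) (fun x _ => mem_range.2 (hc x))
    (univ.filter fun T : Finset α => T.card < ι).card ?_
  · rwa [card_range] at this
  intro b _
  set B := (univ.filter fun x => ¬ Good K ι c x).filter fun x => c x = b with hB
  set V := univ.filter fun T : Finset α => T.card < ι with hV
  by_contra hlt
  rw [not_le] at hlt
  have hk := LinearMap.ker_ne_bot_of_finrank_lt
    (f := Matrix.mulVecLin (fun (T : V) (y : B) => if T.1 ⊆ y.1 then (1 : K) else 0))
    (by simpa using hlt)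
  obtain ⟨r, hr, hr0⟩ := Submodule.exists_mem_ne_zero_of_ne_bot hk
  obtain ⟨x, hx⟩ := Function.ne_iff.1 hr0
  have hxB := mem_filter.1 x.2
  refine (mem_filter.1 hxB.1).2 ⟨fun y => if h : y ∈ B then r ⟨y, h⟩ else 0, ?_, ?_, ?_⟩
  · simp only [dif_pos x.2]
    exact hx
  · intro y hy
    by_cases h : y ∈ B
    · rw [(mem_filter.1 h).2, hxB.2]
    · exact absurd (dif_neg h) hy
  · intro T hT
    have h1 := congrFun (LinearMap.mem_ker.1 hr) ⟨T, mem_filter.2 ⟨mem_univ _, hT⟩⟩
    simp only [Matrix.mulVecLin_apply, Matrix.mulVec, dotProduct, Pi.zero_apply] at h1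
    rw [← sum_subset (subset_univ B) fun y _ hy => by simp only [dif_neg hy, ite_self],
      ← sum_coe_sort B]
    refine Eq.trans (sum_congr rfl fun y _ => ?_) h1
    simp only [dif_pos y.2, ite_mul, one_mul, zero_mul]

theorem tail [Fintype α] {ι j : ℕ} (h : Fintype.card α = ι + j) {p q : ℝ} (hp : 0 ≤ p)
    (hq : p ≤ q) :
    ((univ.filter fun T : Finset α => T.card < ι).card : ℝ) * (p ^ ι * q ^ j) ≤
      (p + q) ^ (ι + j) := by
  rw [← h, ← Fintype.sum_pow_mul_eq_add_pow α p q, ← nsmul_eq_mul]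
  refine (card_nsmul_le_sum _ (fun T : Finset α => p ^ T.card * q ^ (Fintype.card α - T.card)) _
    fun T hT => ?_).trans (sum_le_sum_of_subset_of_nonneg (filter_subset _ _) fun T _ _ =>
      mul_nonneg (pow_nonneg hp _) (pow_nonneg (hp.trans hq) _))
  obtain ⟨i, hi⟩ := Nat.exists_eq_add_of_le (mem_filter.1 hT).2.le
  have e : Fintype.card α - T.card = i + j := by omega
  rw [e, hi, pow_add, pow_add, mul_assoc]
  exact mul_le_mul_of_nonneg_left (mul_le_mul_of_nonneg_right (pow_le_pow_left₀ hp hq _)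
    (pow_nonneg (hp.trans hq) _)) (pow_nonneg hp _)

theorem few (a : ℕ) : ∃ C : ℕ, 0 < C ∧ ∀ (L : ℕ) (α : Type) [Fintype α],
    Fintype.card α = (2 * a + 1) * (C * (L + 1)) →
    (a + 1) * ((univ.filter fun T : Finset α => T.card < a * (C * (L + 1))).card * 2 ^ (L + 1)) ≤
      2 ^ Fintype.card α := by
  set z : ℝ := 1 / (2 * a + 2) with hz
  have ha : (0 : ℝ) ≤ a := a.cast_nonneg
  have z0 : 0 < z := by positivity
  have z1 : (2 * a + 2) * z = 1 := by rw [hz]; field_simp
  have z2 : z ≤ 1 / 2 := by nlinarith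
  have hl : 1 < (1 - z) ^ a * (1 + z) ^ (a + 1) := by
    have h1 : 1 + (a : ℝ) * (-z ^ 2) ≤ (1 + -z ^ 2) ^ a :=
      one_add_mul_le_pow (by nlinarith) a
    have h2 : (1 - z) ^ a * (1 + z) ^ (a + 1) = (1 + -z ^ 2) ^ a * (1 + z) := by
      rw [pow_succ, ← mul_assoc, ← mul_pow]; ring
    have h3 : (a : ℝ) * z ≤ 1 / 2 := by nlinarith
    have h4 : 1 < (1 + (a : ℝ) * (-z ^ 2)) * (1 + z) := by
      have : (1 + (a : ℝ) * (-z ^ 2)) * (1 + z) = 1 + z * (1 - a * z * (1 + z)) := by ring
      rw [this]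
      have : (a : ℝ) * z * (1 + z) ≤ 1 / 2 * (3 / 2) :=
        mul_le_mul h3 (by linarith) (by linarith) (by norm_num)
      nlinarith
    rw [h2]
    exact h4.trans_le (mul_le_mul_of_nonneg_right h1 (by linarith))
  obtain ⟨C, hC⟩ := pow_unbounded_of_one_lt (2 * (a + 1) : ℝ) hl
  refine ⟨C, Nat.pos_of_ne_zero fun h => ?_, fun L α _ h => ?_⟩
  · rw [h, pow_zero] at hC
    linarith
  set r := C * (L + 1) with hr
  have h1 := tail (α := α) (ι := a * r) (j := (a + 1) * r) (by rw [h]; ring) (p := 1 - z)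
    (q := 1 + z) (by linarith) (by linarith)
  have e1 : a * r + (a + 1) * r = Fintype.card α := by rw [h]; ring
  have e2 : (1 - z + (1 + z) : ℝ) = 2 := by ring
  have e3 : (1 - z) ^ (a * r) * (1 + z) ^ ((a + 1) * r) =
      (((1 - z) ^ a * (1 + z) ^ (a + 1)) ^ C) ^ (L + 1) := by
    rw [← pow_mul _ C, ← hr, mul_pow, ← pow_mul, ← pow_mul]
  rw [e1, e2, e3] at h1
  have h2 : ((a : ℝ) + 1) * 2 ^ (L + 1) ≤ (((1 - z) ^ a * (1 + z) ^ (a + 1)) ^ C) ^ (L + 1) := by
    refine le_trans ?_ (pow_le_pow_left₀ (by positivity) hC.le _)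
    rw [mul_pow, mul_comm]
    exact mul_le_mul_of_nonneg_left (le_self_pow₀ (by linarith) (by omega)) (by positivity)
  have h3 := (mul_le_mul_of_nonneg_left h2 (Nat.cast_nonneg _)).trans h1
  rw [mul_left_comm] at h3
  exact_mod_cast h3

end Pool.Agent.Lib.ND37
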