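import Pool.Agent.Lib.MP_07573f_lc.Defs

/-! Nondeterministic degree of a message function. -/

set_option autoImplicit false

namespace Pool.Agent.Lib.ND37

/-- The message function `φ` of vertex `u` has nondeterministic degree at most `E` over `K`: for
every input `B ∋ u` there is a polynomial of total degree at most `E` in the `n` input bits which
is nonzero at `B` and is nonzero only at inputs `A ∋ u` with the same message as `B`. -/
def NDeg (K : Type) [Field K] {n : ℕ} (E : ℕ) (u : Fin n) (φ : Set (Fin n) → List Bool) : Prop :=
  ∀ B : Set (Fin n), u ∈ B → ∃ Q : MvPolynomial (Fin n) K, Q.totalDegree ≤ E ∧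
    MvPolynomial.eval (B.indicator 1) Q ≠ 0 ∧
    ∀ A : Set (Fin n), u ∈ A → MvPolynomial.eval (A.indicator 1) Q ≠ 0 → φ A = φ B

end Pool.Agent.Lib.ND37
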