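import Pool.Agent.Lib.ND37.Core
import Pool.Agent.Lib.MP_07573f_lc.Main

/-! The second matrix with the same messages. -/

set_option autoImplicit false

namespace Pool.Agent.Lib.ND37

open Finset SimpleGraph Pool.Agent.Lib.MP_07573f_lc
open scoped Classical

theorem second {K : Type} [Field K] {n L E ι a : ℕ} {f : Fin n → Set (Fin n) → List Bool}
    {g : (Fin n → List Bool) → Bool} (h : SolvesP4 f g L) (U : Finset (Fin n))
    (hU : ∀ u ∈ U, NDeg K E u (f u)) (hn : U.card + 4 ≤ n)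
    (hV : (a + 1) * ((univ.filter fun T : Finset U => T.card < ι).card * 2 ^ (L + 1)) ≤
      2 ^ Fintype.card U) :
    ∃ k k' : ℕ, k + U.card + 4 = n ∧ a * k ≤ (a + 1) * k' ∧ k' * ι ≤ U.card * E := by
  obtain ⟨T, hT, hT4⟩ := Finset.exists_subset_card_eq (s := Uᶜ) (n := 4)
    (by rw [Finset.card_compl, Fintype.card_fin]; omega)
  obtain ⟨a0, a1, b0, b1, d1, d2, d3, d4, d5, d6, rfl⟩ := Finset.card_eq_four.1 hT4
  have t1 : a0 ∉ U := Finset.mem_compl.1 (hT (by simp))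
  have t2 : a1 ∉ U := Finset.mem_compl.1 (hT (by simp))
  have t3 : b0 ∉ U := Finset.mem_compl.1 (hT (by simp))
  have t4 : b1 ∉ U := Finset.mem_compl.1 (hT (by simp))
  set W : Finset (Fin n) := Uᶜ \ {a0, a1, b0, b1} with hW
  have hWc : W.card + U.card + 4 = n := by
    rw [hW, Finset.card_sdiff_of_subset hT, Finset.card_compl, Fintype.card_fin]; omega
  have hWm : ∀ w, w ∈ W ↔ w ∉ U ∧ w ≠ a0 ∧ w ≠ a1 ∧ w ≠ b0 ∧ w ≠ b1 := fun w => by
    simp [hW, not_or]
  set R : Set (Fin n) := {u | u ∈ U ∨ u = a0 ∨ u = a1} with hR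
  have hWR : ∀ w ∈ W, w ∉ R := fun w hw => by
    have := (hWm w).1 hw
    simp only [hR, Set.mem_ofPred_eq, this.1, this.2.1, this.2.2.1, or_self, not_false_eq_true]
  obtain ⟨sx, hsx, hsx'⟩ : ∃ sx : Finset U → Set (Fin n), (∀ x (u : U), u.1 ∈ sx x ↔ u ∈ x) ∧
      ∀ x u, u ∉ U → u ∉ sx x :=
    ⟨fun x => {u | ∃ h : u ∈ U, ⟨u, h⟩ ∈ x}, fun x u => ⟨fun h => h.2, fun h => ⟨u.2, h⟩⟩,
      fun x u hu h => hu h.1⟩
  set Gr : (Fin n → Finset U) → SimpleGraph (Fin n) := fun τ =>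
    bip R fun u v => u ∈ sx (τ v) ∨ u = a1 ↔ v ≠ b0 with hGr
  set c : Fin n → Finset U → ℕ := fun w x => code (f w (closedNb (Gr fun _ => x) w)) with hc
  have hlen : ∀ w x, c w x < 2 ^ (L + 1) := fun w x =>
    (code_lt _).trans_le (Nat.pow_le_pow_right (by omega) (Nat.succ_le_succ ((h _).1 w)))
  set V := (univ.filter fun T : Finset U => T.card < ι).card * 2 ^ (L + 1) with hVd
  obtain ⟨s, -, c2⟩ : ∃ s ∈ (univ : Finset (Finset U)),
      (a + 1) * (W.filter fun w => ¬ Good K ι (c w) s).card ≤ W.card := by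
    refine Finset.exists_le_of_sum_le univ_nonempty ?_
    have e : ∑ x : Finset U, (W.filter fun w => ¬ Good K ι (c w) x).card =
        ∑ w ∈ W, (univ.filter fun x => ¬ Good K ι (c w) x).card := by
      simp only [Finset.card_filter]
      exact Finset.sum_comm
    rw [← Finset.mul_sum, e, Finset.sum_const, card_univ, Fintype.card_finset, smul_eq_mul]
    have := Finset.sum_le_card_nsmul W _ V fun w _ => bad_card (K := K) ι _ (c w) (hlen w)
    rw [smul_eq_mul] at this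
    refine (Nat.mul_le_mul_left _ this).trans ?_
    rw [mul_left_comm, mul_comm]
    exact Nat.mul_le_mul_right _ hV
  set W' := W.filter fun w => Good K ι (c w) s with hW'
  refine ⟨W.card, W'.card, hWc, ?_, ?_⟩
  · have := Finset.card_filter_add_card_filter_not (s := W) (fun w => Good K ι (c w) s)
    rw [← hW'] at this
    nlinarith
  by_contra hlt
  rw [not_le] at hlt
  choose ρ r1 r2 r3 using fun w : W' => (mem_filter.1 w.2).2
  choose Q q1 q2 q3 using fun u : U =>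
    hU u u.2 (closedNb (Gr fun _ => s) u) (Set.mem_insert _ _)
  obtain ⟨ex, ex1, ex2⟩ : ∃ ex : (W' → Finset U) → Fin n → Finset U,
      (∀ τ (w : W'), ex τ w = τ w) ∧ ∀ τ v, v ∉ W' → ex τ v = s :=
    ⟨fun τ v => if h : v ∈ W' then τ ⟨v, h⟩ else s, fun τ w => dif_pos w.2,
      fun τ v hv => dif_neg hv⟩
  have uR : ∀ u : U, u.1 ∈ R := fun u => Or.inl u.2
  have u1 : ∀ u : U, u.1 ≠ a1 := fun u e => t2 (e ▸ u.2)
  have wW : ∀ w : W', w.1 ∈ W := fun w => (mem_filter.1 w.2).1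
  have hlow : ∀ (u : U) (v : Fin n),
      (fun τ => (closedNb (Gr (ex τ)) u).indicator (1 : Fin n → K) v) ∈ Low K U W' 1 := by
    intro u v
    by_cases hv : v ∈ W'
    · have e : ∀ τ, v ∈ closedNb (Gr (ex τ)) u ↔ u ∈ τ ⟨v, hv⟩ := fun τ => by
        have h1 := hWR v (wW ⟨v, hv⟩)
        have h2 : v ≠ u.1 := fun e => h1 (e ▸ uR u)
        have h3 := ((hWm v).1 (wW ⟨v, hv⟩)).2.2.2.1
        have h4 : ex τ v = τ ⟨v, hv⟩ := ex1 τ ⟨v, hv⟩
        simp only [hGr, nb_row (uR u), Set.mem_insert_iff, Set.mem_ofPred_eq, h1,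
          h2, h3, h4, u1 u, hsx, not_false_eq_true, true_and, false_or, or_false,
          ne_eq, iff_true]
      exact Low_var u ⟨v, hv⟩ (fun τ h => Set.indicator_of_mem ((e τ).2 h) _)
        fun τ h => Set.indicator_of_notMem (mt (e τ).1 h) _
    · have e : (fun τ => (closedNb (Gr (ex τ)) u).indicator (1 : Fin n → K) v) =
          fun _ => (closedNb (Gr fun _ => s) u).indicator (1 : Fin n → K) v := by
        funext τ
        simp only [hGr, nb_row (uR u), Set.indicator, Set.mem_insert_iff, Set.mem_ofPred_eq,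
          ex2 τ v hv]
      rw [e]
      exact Low_const _
  have hF := Low_prod univ _ (fun _ => E) fun (u : U) _ => Low_eval _ (hlow u) (Q u) (q1 u)
  rw [sum_const, card_univ, Fintype.card_coe, smul_eq_mul] at hF
  have exs : ex (fun _ => s) = fun _ => s := by
    funext v
    by_cases hv : v ∈ W'
    · exact ex1 _ ⟨v, hv⟩
    · exact ex2 _ v hv
  obtain ⟨τ, hτ, hne⟩ := other ρ r3 (by rwa [Fintype.card_coe]) hF (fun _ => s) (by
    rw [Finset.prod_apply, exs]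
    exact mul_ne_zero (prod_ne_zero_iff.2 fun w _ => r1 w) (prod_ne_zero_iff.2 fun u _ => q2 u))
  rw [Finset.prod_apply] at hne
  have p1 := prod_ne_zero_iff.1 (left_ne_zero_of_mul hne)
  have p2 := prod_ne_zero_iff.1 (right_ne_zero_of_mul hne)
  have key : (fun i => f i (closedNb (Gr (ex τ)) i)) =
      fun i => f i (closedNb (Gr fun _ => s) i) := by
    funext i
    by_cases hi : i ∈ R
    · by_cases hiU : i ∈ U
      · exact q3 ⟨i, hiU⟩ _ (Set.mem_insert _ _) (p2 ⟨i, hiU⟩ (mem_univ _))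
      · simp only [hGr, nb_row hi, hsx' _ i hiU]
    · by_cases hv : i ∈ W'
      · have := code_inj _ _ (r2 ⟨i, hv⟩ _ (p1 ⟨i, hv⟩ (mem_univ _)))
        have h4 : ex τ i = τ ⟨i, hv⟩ := ex1 τ ⟨i, hv⟩
        simp only [hGr, nb_col hi, h4] at this ⊢
        exact this
      · simp only [hGr, nb_col hi, ex2 τ i hv]
  have yes := (h _).2.not.2 (no_p4 R {u | u ∈ sx s ∨ u = a1} {v | v ≠ b0})
  have yes' : ¬ g (fun i => f i (closedNb (Gr fun _ => s) i)) = true := yes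
  rw [← key] at yes'
  refine yes' ((h _).2.2 ?_)
  obtain ⟨w, hw⟩ := Function.ne_iff.1 hτ
  obtain ⟨u, hu⟩ : ∃ u, ¬ (u ∈ τ w ↔ u ∈ s) := by
    by_contra h'
    push Not at h'
    exact hw (Finset.ext h')
  have hwW := (hWm w).1 (wW w)
  have nb : ∀ b, b = b0 ∨ b = b1 → ex τ b = s ∧ b ∉ R := fun b hb => by
    refine ⟨ex2 τ b fun h => ?_, ?_⟩
    · have := (hWm b).1 (wW ⟨b, h⟩)
      exact hb.elim this.2.2.2.1 this.2.2.2.2
    · simp only [hR, Set.mem_ofPred_eq]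
      rcases hb with rfl | rfl
      · simp [t3, d2.symm, d4.symm]
      · simp [t4, d3.symm, d5.symm]
  obtain ⟨q3, q4⟩ := nb b0 (Or.inl rfl)
  obtain ⟨q6, q7⟩ := nb b1 (Or.inr rfl)
  have s1 := uR u
  have s2 : a0 ∈ R := Or.inr (Or.inl rfl)
  have s3 : a1 ∈ R := Or.inr (Or.inr rfl)
  have s4 : w.1 ∉ R := hWR w (wW w)
  have s5 := u1 u
  have s7 : w.1 ≠ b0 := hwW.2.2.2.1
  have s8 := fun x => hsx' x a0 t1
  by_cases hus : u ∈ s
  · have := (prop2 hu).1 hus
    refine has_p4 (a := u.1) (b := b1) (c := a1) (d := w.1) ?_ ?_ ?_ ?_ ?_ ?_ <;>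
      simp [hGr, bip, ex1, q6, q7, s1, s3, s4, s5, s7, hsx, hus, this, d6.symm]
  · have := (prop2 hu).2 hus
    refine has_p4 (a := a0) (b := b0) (c := u.1) (d := w.1) ?_ ?_ ?_ ?_ ?_ ?_ <;>
      simp [hGr, bip, ex1, q3, q4, s1, s2, s4, s5, s7, s8, d1, hsx, hus, this]

theorem bound (ε : ℝ) (hε : 0 < ε) : ∃ C : ℕ, ∀ (K : Type) [Field K] (n L E : ℕ)
    (f : Fin n → Set (Fin n) → List Bool) (g : (Fin n → List Bool) → Bool), SolvesP4 f g L →
    ∀ U : Finset (Fin n), C * (L + 1) ≤ U.card → (∀ u ∈ U, NDeg K E u (f u)) →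
    (n : ℝ) ≤ (2 + ε) * E + C * (L + 1) := by
  obtain ⟨a, ha⟩ := exists_nat_gt (4 / ε + 1)
  have a1 : (1 : ℝ) < a := lt_of_le_of_lt (le_add_of_nonneg_left (by positivity)) ha
  have a2 : 4 ≤ ε * a := by
    have := (div_le_iff₀ hε).1 (show 4 / ε ≤ a by linarith)
    linarith
  obtain ⟨C, hC, hf⟩ := few a
  refine ⟨(2 * a + 1) * C + 4, fun K _ n L E f g h U0 hU0 hU => ?_⟩
  set r := C * (L + 1) with hr
  have r0 : 0 < r := Nat.mul_pos hC (by omega)
  have e0 : ((2 * a + 1) * C + 4) * (L + 1) = (2 * a + 1) * r + 4 * (L + 1) := by rw [hr]; ring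
  obtain ⟨U, hUU, hc⟩ := Finset.exists_subset_card_eq (s := U0) (n := (2 * a + 1) * r) (by omega)
  have hE : (0 : ℝ) ≤ E := E.cast_nonneg
  have fin : ∀ k : ℕ, n ≤ k + U.card + 4 → (k : ℝ) ≤ (2 + ε) * E →
      (n : ℝ) ≤ (2 + ε) * E + (((2 * a + 1) * C + 4 : ℕ) : ℝ) * (L + 1) := fun k h1 h2 => by
    have h3 : n ≤ k + ((2 * a + 1) * C + 4) * (L + 1) := by omega
    have h4 : (n : ℝ) ≤ k + (((2 * a + 1) * C + 4 : ℕ) : ℝ) * (L + 1) := by exact_mod_cast h3
    linarith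
  by_cases hn : U.card + 4 ≤ n
  · obtain ⟨k, k', h1, h2, h3⟩ := second (ι := a * r) (a := a) h U (fun u hu => hU u (hUU hu)) hn
      (hf L U (by rw [Fintype.card_coe, hc]))
    refine fin k h1.ge ?_
    have h4 : k' * a ≤ (2 * a + 1) * E := by
      refine Nat.le_of_mul_le_mul_right ?_ r0
      rw [hc] at h3
      calc k' * a * r = k' * (a * r) := by ring
        _ ≤ (2 * a + 1) * r * E := h3
        _ = (2 * a + 1) * E * r := by ring
    have h5 : (a : ℝ) * k ≤ (a + 1) * k' := by exact_mod_cast h2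
    have h6 : (k' : ℝ) * a ≤ (2 * a + 1) * E := by exact_mod_cast h4
    have h7 : (a : ℝ) * a * k ≤ (a + 1) * ((2 * a + 1) * E) := by nlinarith
    have h8 : ((a : ℝ) + 1) * (2 * a + 1) ≤ a * a * (2 + ε) := by nlinarith
    have h9 : (a : ℝ) * a * k ≤ a * a * ((2 + ε) * E) := by nlinarith
    exact le_of_mul_le_mul_left h9 (by positivity)
  · exact fin 0 (by omega) (by rw [Nat.cast_zero]; positivity)

end Pool.Agent.Lib.ND37
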